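import Mathlib

set_option autoImplicit false

namespace Pool.Agent.Results.MP_cfde94_co.CrownGraph

open SimpleGraph Finset

/-- The label `|b u - b v|` of the unordered pair `{u, v}`. -/
def edgeLabel {V : Type} (b : V → ℕ) : Sym2 V → ℕ :=
  Sym2.lift ⟨fun u v => ((b u : ℤ) - (b v : ℤ)).natAbs, fun u v => by
    change ((b u : ℤ) - (b v : ℤ)).natAbs = ((b v : ℤ) - (b u : ℤ)).natAbs
    rw [← Int.natAbs_neg, neg_sub]⟩

/-- `b` is a `β`-valuation (graceful labelling) of `G`: it is injective with values in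
`{0, ..., q}`, `q` the number of edges, and the edge labels are `1, ..., q`, each occurring once. -/
def IsBeta {V : Type} [Fintype V] (G : SimpleGraph V) [DecidableRel G.Adj] (b : V → ℕ) : Prop :=
  Function.Injective b ∧ (∀ v, b v ≤ G.edgeFinset.card) ∧
    Set.BijOn (edgeLabel b) G.edgeSet (Set.Icc 1 G.edgeFinset.card)

/-- `b` is a near `α`-valuation of `G`: a `β`-valuation for which the vertices split into a set `S`
(`V_small`) of vertices whose label is smaller than the labels of all their neighbours, and its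
complement (`V_large`), whose vertices have a label larger than the labels of all their
neighbours. -/
def IsNearAlpha {V : Type} [Fintype V] (G : SimpleGraph V) [DecidableRel G.Adj] (b : V → ℕ) :
    Prop :=
  IsBeta G b ∧ ∃ S : Set V, (∀ v ∈ S, ∀ u, G.Adj v u → b v < b u) ∧
    (∀ v ∉ S, ∀ u, G.Adj v u → b u < b v)

theorem gauss (q : ℕ) : 2 * ∑ k ∈ Finset.Icc 1 q, (k : ℤ) = q * (q + 1) := by
  induction q with
  | zero => simp
  | succ n ih =>
    rw [Finset.sum_Icc_succ_top (by omega), mul_add, ih]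
    push_cast
    ring

theorem sum_dart_edge {V : Type} [Fintype V] [DecidableEq V] (G : SimpleGraph V)
    [DecidableRel G.Adj] (F : Sym2 V → ℤ) :
    ∑ d : G.Dart, F d.edge = 2 * ∑ e ∈ G.edgeFinset, F e := by
  classical
  have h1 : ∑ d : G.Dart, F d.edge =
      ∑ e ∈ G.edgeFinset, ∑ d ∈ (univ.filter fun d : G.Dart => d.edge = e), F d.edge := by
    rw [Finset.sum_fiberwise_of_maps_to]
    intro d _
    rw [mem_edgeFinset]
    exact d.edge_mem
  rw [h1, Finset.mul_sum]
  refine Finset.sum_congr rfl fun e he => ?_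
  have h2 : ∑ d ∈ (univ.filter fun d : G.Dart => d.edge = e), F d.edge =
      ∑ d ∈ (univ.filter fun d : G.Dart => d.edge = e), F e := by
    refine Finset.sum_congr rfl fun d hd => ?_
    rw [(Finset.mem_filter.mp hd).2]
  rw [h2, Finset.sum_const, G.dart_edge_fiber_card e (mem_edgeFinset.mp he)]
  simp

theorem sum_darts_double {V : Type} [Fintype V] [DecidableEq V] (G : SimpleGraph V)
    [DecidableRel G.Adj] (H : V → V → ℤ) :
    ∑ d : G.Dart, H d.fst d.snd = ∑ u, ∑ v ∈ G.neighborFinset u, H u v := by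
  classical
  have e : ∀ u, ∑ v ∈ G.neighborFinset u, H u v = ∑ v, if G.Adj u v then H u v else 0 := by
    intro u
    rw [← Finset.sum_filter]
    refine Finset.sum_congr ?_ fun _ _ => rfl
    ext v
    simp
  simp only [e]
  rw [← Finset.sum_product', ← Finset.sum_filter]
  symm
  refine Finset.sum_bij' (fun x hx => (⟨(x.1, x.2), (Finset.mem_filter.mp hx).2⟩ : G.Dart))
    (fun d _ => (d.fst, d.snd)) ?_ ?_ ?_ ?_ ?_
  · intro x hx; exact Finset.mem_univ _
  · intro d _
    simp only [Finset.mem_filter, Finset.mem_product, Finset.mem_univ, true_and]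
    exact d.adj
  · intro x hx; rfl
  · intro d _; rfl
  · intro x hx; rfl

/-- A divisibility obstruction: if all degrees are divisible by `4` and `q ≡ 4 (mod 8)` then there
is no near `α`-valuation. -/
theorem no_nearAlpha {V : Type} [Fintype V] [DecidableEq V] (G : SimpleGraph V)
    [DecidableRel G.Adj] (h4 : ∀ v, 4 ∣ G.degree v) (hq : G.edgeFinset.card % 8 = 4)
    (b : V → ℕ) : ¬ IsNearAlpha G b := by
  classical
  rintro ⟨⟨_, _, hbij⟩, S, hS1, hS2⟩
  set q := G.edgeFinset.card with hqdef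
  have hsum : ∑ e ∈ G.edgeFinset, (edgeLabel b e : ℤ) = ∑ k ∈ Finset.Icc 1 q, (k : ℤ) := by
    refine Finset.sum_bij (fun e _ => edgeLabel b e) ?_ ?_ ?_ ?_
    · intro e he
      have := hbij.mapsTo (mem_edgeFinset.mp he)
      simpa using this
    · intro e he e' he' h
      exact hbij.injOn (mem_edgeFinset.mp he) (mem_edgeFinset.mp he') h
    · intro k hk
      obtain ⟨e, he, rfl⟩ := hbij.surjOn (show k ∈ Set.Icc 1 q by simpa using hk)
      exact ⟨e, mem_edgeFinset.mpr he, rfl⟩
    · intro e _; rfl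
  have hgauss : 2 * ∑ k ∈ Finset.Icc 1 q, (k : ℤ) = q * (q + 1) := gauss q
  let ε : V → ℤ := fun v => if v ∈ S then -1 else 1
  have hε : ∀ u v, G.Adj u v → ε v = - ε u := by
    intro u v huv
    by_cases hu : u ∈ S <;> by_cases hv : v ∈ S
    · exact absurd (hS1 u hu v huv) (not_lt.mpr (hS1 v hv u huv.symm).le)
    · simp [ε, hu, hv]
    · simp [ε, hu, hv]
    · exact absurd (hS2 u hu v huv) (not_lt.mpr (hS2 v hv u huv.symm).le)
  have hlab : ∀ u v, G.Adj u v → (edgeLabel b s(u, v) : ℤ) = ε u * ((b u : ℤ) - b v) := by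
    intro u v huv
    have e : edgeLabel b s(u, v) = ((b u : ℤ) - (b v : ℤ)).natAbs := rfl
    rw [e, Int.natCast_natAbs]
    by_cases hu : u ∈ S
    · have := hS1 u hu v huv
      rw [abs_of_nonpos (by omega)]
      simp [ε, hu]
    · have := hS2 u hu v huv
      rw [abs_of_nonneg (by omega)]
      simp [ε, hu]
  have h1 : ∑ d : G.Dart, (edgeLabel b d.edge : ℤ) =
      ∑ d : G.Dart, (ε d.fst * (b d.fst : ℤ) + ε d.snd * (b d.snd : ℤ)) := by
    refine Finset.sum_congr rfl fun d _ => ?_
    have e1 : (edgeLabel b d.edge : ℤ) = ε d.fst * ((b d.fst : ℤ) - b d.snd) :=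
      hlab d.fst d.snd d.adj
    rw [e1, hε d.fst d.snd d.adj]
    ring
  have h2 : ∑ d : G.Dart, ε d.fst * (b d.fst : ℤ) = ∑ u, (G.degree u : ℤ) * (ε u * b u) := by
    rw [sum_darts_double G (fun u _ => ε u * (b u : ℤ))]
    refine Finset.sum_congr rfl fun u _ => ?_
    rw [Finset.sum_const, card_neighborFinset_eq_degree, nsmul_eq_mul]
  have h3 : ∑ d : G.Dart, ε d.snd * (b d.snd : ℤ) = ∑ d : G.Dart, ε d.fst * (b d.fst : ℤ) := by
    refine Fintype.sum_equiv (Equiv.mk (fun d : G.Dart => d.symm) (fun d => d.symm)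
      (fun d => d.symm_symm) (fun d => d.symm_symm)) _ _ fun d => ?_
    rfl
  have h5 : (4 : ℤ) ∣ ∑ u, (G.degree u : ℤ) * (ε u * b u) := by
    refine Finset.dvd_sum fun u _ => ?_
    exact Dvd.dvd.mul_right (by exact_mod_cast h4 u) _
  have h6 : 2 * ∑ e ∈ G.edgeFinset, (edgeLabel b e : ℤ) =
      2 * ∑ u, (G.degree u : ℤ) * (ε u * b u) := by
    rw [← sum_dart_edge G (fun e => (edgeLabel b e : ℤ)), h1, Finset.sum_add_distrib, h3, h2]
    ring
  rw [hsum, hgauss] at h6
  obtain ⟨c, hc⟩ := h5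
  rw [hc] at h6
  have h7 : ((q * (q + 1) : ℕ) : ℤ) = 8 * c := by
    push_cast
    linarith
  have h8 : (8 : ℤ) ∣ ((q * (q + 1) : ℕ) : ℤ) := ⟨c, h7⟩
  have h9 : 8 ∣ q * (q + 1) := by exact_mod_cast h8
  have h10 : (q * (q + 1)) % 8 = 4 := by
    rw [Nat.mul_mod, Nat.add_mod, hq]
  omega

/-- `K_{5,5}` minus a perfect matching, on `Fin 10`: the vertices `0, ..., 4` and `5, ..., 9` are the
two sides and `i` is adjacent to `5 + j` for `i ≠ j`. -/
def crown : SimpleGraph (Fin 10) where
  Adj x y := (x.val < 5 ∧ 5 ≤ y.val ∧ x.val + 5 ≠ y.val) ∨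
    (y.val < 5 ∧ 5 ≤ x.val ∧ y.val + 5 ≠ x.val)
  symm := ⟨fun _ _ h => h.symm⟩
  loopless := ⟨fun x h => by omega⟩

instance : DecidableRel crown.Adj := fun x y => by
  unfold crown
  infer_instance

/-- the graceful labelling -/
def lab : Fin 10 → ℕ := ![0, 9, 6, 4, 14, 7, 20, 19, 18, 17]

theorem crown_card : crown.edgeFinset.card = 20 := by decide +kernel

theorem crown_degree : ∀ v, crown.degree v = 4 := by decide +kernel

theorem lab_beta : IsBeta crown lab := by
  refine ⟨by decide +kernel, by rw [crown_card]; decide +kernel, ?_⟩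
  rw [crown_card]
  have h1 : crown.edgeFinset.image (edgeLabel lab) = Finset.Icc 1 20 := by decide +kernel
  have h2 : Set.InjOn (edgeLabel lab) (crown.edgeFinset : Set (Sym2 (Fin 10))) := by
    rw [← Finset.card_image_iff, h1, crown_card]
    rfl
  refine ⟨?_, ?_, ?_⟩
  · intro e he
    have : edgeLabel lab e ∈ crown.edgeFinset.image (edgeLabel lab) :=
      Finset.mem_image_of_mem _ (mem_edgeFinset.mpr he)
    rw [h1] at this
    simpa using this
  · simpa using h2
  · intro k hk
    have : k ∈ crown.edgeFinset.image (edgeLabel lab) := by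
      rw [h1]; simpa using hk
    obtain ⟨e, he, rfl⟩ := Finset.mem_image.mp this
    exact ⟨e, mem_edgeFinset.mp he, rfl⟩

/-- There is a finite connected bipartite graph without isolated vertices (`K_{5,5}` minus a perfect
matching) which has a `β`-valuation but no near `α`-valuation. -/
theorem result : ∃ G : SimpleGraph (Fin 10), ∃ _ : DecidableRel G.Adj,
    G.Connected ∧ G.IsBipartite ∧ (∀ v, ∃ u, G.Adj v u) ∧
      (∃ b, IsBeta G b) ∧ ¬ ∃ b, IsNearAlpha G b := by
  refine ⟨crown, inferInstance, ?_, ?_, ?_, ⟨lab, lab_beta⟩, ?_⟩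
  · rw [connected_iff_exists_forall_reachable]
    refine ⟨0, ?_⟩
    have h0 : ∀ y : Fin 10, y = 0 ∨ crown.Adj 0 y ∨ (∃ z, crown.Adj 0 z ∧ crown.Adj z y) ∨
        (∃ z w, crown.Adj 0 z ∧ crown.Adj z w ∧ crown.Adj w y) := by decide +kernel
    intro y
    rcases h0 y with rfl | h | ⟨z, h1, h2⟩ | ⟨z, w, h1, h2, h3⟩
    · exact Reachable.refl _
    · exact h.reachable
    · exact h1.reachable.trans h2.reachable
    · exact (h1.reachable.trans h2.reachable).trans h3.reachable
  · refine ⟨Coloring.mk (fun x : Fin 10 => if x.val < 5 then (0 : Fin 2) else 1) ?_⟩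
    decide +kernel
  · decide +kernel
  · rintro ⟨b, hb⟩
    exact no_nearAlpha crown (fun v => by rw [crown_degree]) (by rw [crown_card]) b hb

end Pool.Agent.Results.MP_cfde94_co.CrownGraph
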